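import Mathlib

set_option autoImplicit false

open Set Filter Topology

universe u v w

namespace Pool.Agent.Helper27.OwnKsd

/-- `C_p(X)`: the vector space of all continuous real functions on `X`, a linear subspace of
the product `X → ℝ` with the subspace topology, which is the topology of pointwise convergence. -/
abbrev Cp (X : Type u) [TopologicalSpace X] : Submodule ℝ (X → ℝ) := continuousSubmodule X ℝ ℝ

/-- evaluation at a point -/
def ev {X : Type u} [TopologicalSpace X] (x : X) : Cp X →L[ℝ] ℝ where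
  toFun := fun f => f.1 x
  map_add' := fun _ _ => rfl
  map_smul' := fun _ _ => rfl
  cont := (continuous_apply x).comp continuous_subtype_val

theorem ev_apply {X : Type u} [TopologicalSpace X] (x : X) (f : Cp X) : ev x f = f.1 x := rfl

/-- A linear functional that is continuous for pointwise convergence is supported on
a finite set. -/
theorem exists_finset_of_continuous {X : Type u} [TopologicalSpace X] (Λ : Cp X →L[ℝ] ℝ) :
    ∃ T : Finset X, ∀ f : Cp X, (∀ x ∈ T, f.1 x = 0) → Λ f = 0 := by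
  have hU : IsOpen {f : Cp X | |Λ f| < 1} :=
    isOpen_lt (continuous_abs.comp Λ.continuous) continuous_const
  rw [isOpen_induced_iff] at hU
  obtain ⟨U, hUo, hUe⟩ := hU
  have h0 : ((0 : Cp X) : X → ℝ) ∈ U := by
    have : (0 : Cp X) ∈ Subtype.val ⁻¹' U := by
      rw [hUe]; simp
    exact this
  rw [isOpen_pi_iff] at hUo
  obtain ⟨I, u, hu, hsub⟩ := hUo _ h0
  refine ⟨I, fun f hf => ?_⟩
  have key : ∀ r : ℝ, |Λ (r • f)| < 1 := by
    intro r
    have : r • f ∈ Subtype.val ⁻¹' U := by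
      apply hsub
      intro i hi
      have h1 : ((r • f : Cp X) : X → ℝ) i = 0 := by
        have h2 : ((r • f : Cp X) : X → ℝ) i = r * f.1 i := rfl
        rw [h2, hf i hi, mul_zero]
      show ((r • f : Cp X) : X → ℝ) i ∈ u i
      rw [h1]
      exact (hu i hi).2
    rw [hUe] at this
    exact this
  by_contra hne
  have := key (Λ f)⁻¹
  rw [map_smul, smul_eq_mul, inv_mul_cancel₀ hne] at this
  simp at this

/-- such a functional is a finite combination of evaluations -/
theorem exists_repr_of_continuous {X : Type u} [TopologicalSpace X] (Λ : Cp X →L[ℝ] ℝ) :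
    ∃ (T : Finset X) (c : X → ℝ), (∀ x ∈ T, c x ≠ 0) ∧
      ∀ f : Cp X, Λ f = ∑ x ∈ T, c x * f.1 x := by
  classical
  obtain ⟨T, hT⟩ := exists_finset_of_continuous Λ
  let evT : T → (Cp X →ₗ[ℝ] ℝ) := fun x => (ev (x : X)).toLinearMap
  have hspan : (Λ : Cp X →ₗ[ℝ] ℝ) ∈ Submodule.span ℝ (Set.range evT) := by
    apply mem_span_of_iInf_ker_le_ker
    intro f hf
    rw [LinearMap.mem_ker]
    apply hT
    intro x hx
    have := (Submodule.mem_iInf _).1 hf ⟨x, hx⟩
    exact this
  rw [Submodule.mem_span_range_iff_exists_fun] at hspan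
  obtain ⟨c, hc⟩ := hspan
  let c' : X → ℝ := fun x => if hx : x ∈ T then c ⟨x, hx⟩ else 0
  refine ⟨T.filter (fun x => c' x ≠ 0), c', ?_, ?_⟩
  · intro x hx
    exact (Finset.mem_filter.1 hx).2
  · intro f
    have h1 : Λ f = ∑ x ∈ T, c' x * f.1 x := by
      have h2 : Λ f = (Λ : Cp X →ₗ[ℝ] ℝ) f := rfl
      rw [h2, ← hc, LinearMap.sum_apply, ← Finset.sum_coe_sort T]
      apply Finset.sum_congr rfl
      intro x _
      simp [c', evT, ev_apply]
    rw [h1, Finset.sum_filter]
    apply Finset.sum_congr rfl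
    intro x _
    by_cases hx : c' x = 0 <;> simp [hx]

/-- In a completely regular space finite sets are functionally separated from closed sets. -/
theorem exists_sep {Y : Type v} [TopologicalSpace Y] [CompletelyRegularSpace Y] (T : Finset Y)
    (C : Set Y) (hC : IsClosed C) (hd : ∀ t ∈ T, t ∉ C) :
    ∃ g : Cp Y, (∀ t ∈ T, g.1 t = 0) ∧ ∀ y ∈ C, g.1 y = 1 := by
  classical
  induction T using Finset.induction_on with
  | empty => exact ⟨⟨fun _ => 1, continuous_const⟩, by simp, by simp⟩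
  | insert a T ha ih =>
    obtain ⟨g, hg0, hg1⟩ := ih (fun t ht => hd t (Finset.mem_insert_of_mem ht))
    obtain ⟨f, hfc, hf0, hf1⟩ := CompletelyRegularSpace.completely_regular a C hC
      (hd a (Finset.mem_insert_self _ _))
    have hgc : Continuous g.1 := g.2
    refine ⟨⟨fun y => (f y : ℝ) * g.1 y, by
      show Continuous _
      fun_prop⟩, ?_, ?_⟩
    · intro t ht
      rcases Finset.mem_insert.1 ht with rfl | ht
      · simp [hf0]
      · simp [hg0 t ht]
    · intro y hy
      have := hf1 hy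
      simp [this, hg1 y hy]

/-- closures in the Stone-Cech compactification of a normal space. -/
theorem closure_inter_stoneCech {Y : Type v} [TopologicalSpace Y] [NormalSpace Y]
    (C₁ C₂ : Set Y)
    (h₁ : IsClosed C₁) (h₂ : IsClosed C₂) (p : StoneCech Y)
    (hp₁ : p ∈ closure (stoneCechUnit '' C₁)) (hp₂ : p ∈ closure (stoneCechUnit '' C₂)) :
    p ∈ closure (stoneCechUnit '' (C₁ ∩ C₂)) := by
  by_contra hp
  have hopen : (closure (stoneCechUnit '' (C₁ ∩ C₂)))ᶜ ∈ 𝓝 p :=
    isClosed_closure.isOpen_compl.mem_nhds hp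
  obtain ⟨V, hV, hVc, hVsub⟩ := exists_mem_nhds_isClosed_subset hopen
  have hcl : ∀ C : Set Y, p ∈ closure (stoneCechUnit '' C) →
      p ∈ closure (stoneCechUnit '' (C ∩ stoneCechUnit ⁻¹' V)) := by
    intro C hC
    rw [mem_closure_iff_nhds] at hC ⊢
    intro W hW
    obtain ⟨q, ⟨hqW, hqV⟩, ⟨y, hy, rfl⟩⟩ := hC (W ∩ V) (inter_mem hW hV)
    exact ⟨_, hqW, y, ⟨hy, hqV⟩, rfl⟩
  have hVY : IsClosed (stoneCechUnit ⁻¹' V : Set Y) := hVc.preimage continuous_stoneCechUnit
  have hdis : Disjoint (C₁ ∩ stoneCechUnit ⁻¹' V) (C₂ ∩ stoneCechUnit ⁻¹' V) := by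
    rw [Set.disjoint_left]
    rintro y ⟨hy1, hyV⟩ ⟨hy2, _⟩
    exact hVsub hyV (subset_closure ⟨y, ⟨hy1, hy2⟩, rfl⟩)
  obtain ⟨f, hf0, hf1, hf⟩ := exists_continuous_zero_one_of_isClosed (h₁.inter hVY)
    (h₂.inter hVY) hdis
  let f' : Y → unitInterval := fun y => ⟨f y, hf y⟩
  have hf'c : Continuous f' := by
    apply Continuous.subtype_mk
    exact f.continuous
  let F : StoneCech Y → unitInterval := stoneCechExtend hf'c
  have hF : Continuous F := continuous_stoneCechExtend hf'c
  have hFu : ∀ y, F (stoneCechUnit y) = f' y := fun y => by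
    exact congrFun (stoneCechExtend_extends hf'c) y
  have hval : ∀ (C : Set Y) (a : unitInterval), p ∈ closure (stoneCechUnit '' C) →
      (∀ y ∈ C, f' y = a) → F p = a := by
    intro C a hC hCa
    have : F '' closure (stoneCechUnit '' C) ⊆ closure (F '' (stoneCechUnit '' C)) :=
      image_closure_subset_closure_image hF
    have h2 : F p ∈ closure (F '' (stoneCechUnit '' C)) := this ⟨p, hC, rfl⟩
    have h3 : F '' (stoneCechUnit '' C) ⊆ {a} := by
      rintro _ ⟨_, ⟨y, hy, rfl⟩, rfl⟩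
      rw [hFu, hCa y hy]; rfl
    have h4 := closure_mono h3 h2
    simpa using h4
  have e1 := hval _ 0 (hcl C₁ hp₁) (fun y hy => Subtype.ext (hf0 hy))
  have e2 := hval _ 1 (hcl C₂ hp₂) (fun y hy => Subtype.ext (hf1 hy))
  rw [e1] at e2
  exact zero_ne_one e2

/-- A space with a complete sequence of countable covers is Lindelöf. -/
theorem lindelof_of_complete {Y : Type v} [TopologicalSpace Y] (F : ℕ → ℕ → Set Y)
    (hcov : ∀ n, ⋃ k, F n k = univ)
    (hcomp : ∀ 𝒢 : Ultrafilter Y, (∀ n, ∃ k, F n k ∈ 𝒢) → ∃ y, (𝒢 : Filter Y) ≤ 𝓝 y) :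
    LindelofSpace Y := by
  classical
  refine ⟨fun f _ _ _ => ?_⟩
  have step : ∀ (n : ℕ) (P : Set Y), (∃ᶠ y in f, y ∈ P) → ∃ k, ∃ᶠ y in f, y ∈ P ∩ F n k := by
    intro n P hP
    by_contra hcon
    push Not at hcon
    have h2 : ∀ᶠ y in f, ∀ k, y ∉ P ∩ F n k := by
      rw [eventually_countable_forall]
      intro k
      exact hcon k
    apply hP
    filter_upwards [h2] with y hy hyP
    have : y ∈ ⋃ k, F n k := by rw [hcov n]; trivial
    obtain ⟨k, hk⟩ := mem_iUnion.1 this
    exact hy k ⟨hyP, hk⟩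
  choose! kk hkk using step
  let G : ℕ → {P : Set Y // ∃ᶠ y in f, y ∈ P} := fun n => Nat.rec
    ⟨univ, by simp only [mem_univ]; exact frequently_const.2 trivial⟩
    (fun n P => ⟨P.1 ∩ F n (kk n P.1), hkk n P.1 P.2⟩) n
  have hG : ∀ n, (G (n + 1)).1 = (G n).1 ∩ F n (kk n (G n).1) := fun n => rfl
  have hanti : Antitone (fun n => (G n).1) := by
    apply antitone_nat_of_succ_le
    intro n
    rw [hG]
    exact inter_subset_left
  let g : Filter Y := ⨅ n, f ⊓ 𝓟 (G n).1
  have hg : NeBot g := by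
    have hne : Nonempty Y := by
      obtain ⟨y⟩ := (inferInstance : NeBot f).nonempty
      exact ⟨y⟩
    apply Filter.iInf_neBot_of_directed
    · apply Antitone.directed_ge
      intro a b hab
      exact inf_le_inf_left _ (principal_mono.2 (hanti hab))
    · intro n
      rw [← frequently_mem_iff_neBot]
      exact (G n).2
  let 𝒢 := Ultrafilter.of g
  have h𝒢 : (𝒢 : Filter Y) ≤ g := Ultrafilter.of_le g
  obtain ⟨y, hy⟩ := hcomp 𝒢 (fun n => by
    refine ⟨kk n (G n).1, ?_⟩
    have h1 : (𝒢 : Filter Y) ≤ 𝓟 (G (n + 1)).1 := h𝒢.trans ((iInf_le _ (n + 1)).trans inf_le_right)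
    have h2 := le_principal_iff.1 h1
    exact mem_of_superset h2 (by rw [hG]; exact inter_subset_right))
  refine ⟨y, trivial, ?_⟩
  have h3 : (𝒢 : Filter Y) ≤ f := h𝒢.trans ((iInf_le _ 0).trans inf_le_left)
  exact (ClusterPt.of_le_nhds hy).mono h3

/-- A Tychonoff space with a complete sequence of countable closed covers is a countable
intersection of sigma-compact subsets of its Stone-Cech compactification. -/
theorem ksd_of_complete {Y : Type v} [TopologicalSpace Y] [T35Space Y] (F : ℕ → ℕ → Set Y)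
    (hFc : ∀ n k, IsClosed (F n k)) (hcov : ∀ n, ⋃ k, F n k = univ)
    (hcomp : ∀ 𝒢 : Ultrafilter Y, (∀ n, ∃ k, F n k ∈ 𝒢) → ∃ y, (𝒢 : Filter Y) ≤ 𝓝 y) :
    ∃ A : ℕ → ℕ → Set (StoneCech Y), (∀ n m, IsCompact (A n m)) ∧
      Set.range (stoneCechUnit : Y → StoneCech Y) = ⋂ n, ⋃ m, A n m := by
  have hL : LindelofSpace Y := lindelof_of_complete F hcov hcomp
  refine ⟨fun n k => closure (stoneCechUnit '' F n k),
    fun n k => isClosed_closure.isCompact, ?_⟩
  apply Subset.antisymm
  · rintro _ ⟨y, rfl⟩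
    rw [mem_iInter]
    intro n
    have : y ∈ ⋃ k, F n k := by rw [hcov n]; trivial
    obtain ⟨k, hk⟩ := mem_iUnion.1 this
    exact mem_iUnion.2 ⟨k, subset_closure ⟨y, hk, rfl⟩⟩
  · intro p hp
    rw [mem_iInter] at hp
    have hp' : ∀ n, ∃ k, p ∈ closure (stoneCechUnit '' F n k) := fun n => mem_iUnion.1 (hp n)
    choose k hk using hp'
    let P : ℕ → Set Y := fun n => Nat.rec univ (fun n Q => Q ∩ F n (k n)) n
    have hP : ∀ n, P (n + 1) = P n ∩ F n (k n) := fun n => rfl
    have hPc : ∀ n, IsClosed (P n) := by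
      intro n
      induction n with
      | zero => exact isClosed_univ
      | succ n ih => rw [hP]; exact ih.inter (hFc _ _)
    have hpP : ∀ n, p ∈ closure (stoneCechUnit '' P n) := by
      intro n
      induction n with
      | zero =>
        have : stoneCechUnit '' P 0 = range (stoneCechUnit : Y → StoneCech Y) := image_univ
        rw [this]
        exact denseRange_stoneCechUnit p
      | succ n ih =>
        rw [hP]
        exact closure_inter_stoneCech _ _ (hPc n) (hFc _ _) p ih (hk n)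
    have hanti : Antitone P := by
      apply antitone_nat_of_succ_le
      intro n
      rw [hP]
      exact inter_subset_left
    let g : Filter Y := ⨅ n, comap stoneCechUnit (𝓝 p) ⊓ 𝓟 (P n)
    have hne : ∀ n, NeBot (comap stoneCechUnit (𝓝 p) ⊓ 𝓟 (P n)) := by
      intro n
      have h1 := hpP n
      rw [mem_closure_iff_nhds] at h1
      rw [Filter.inf_principal_neBot_iff]
      intro U hU
      obtain ⟨V, hV, hVU⟩ := mem_comap.1 hU
      obtain ⟨q, hqV, ⟨y, hy, rfl⟩⟩ := h1 V hV
      exact ⟨y, hVU hqV, hy⟩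
    have hg : NeBot g := by
      have : Nonempty Y := by
        obtain ⟨y⟩ := (hne 0).nonempty
        exact ⟨y⟩
      apply Filter.iInf_neBot_of_directed
      · apply Antitone.directed_ge
        intro a b hab
        exact inf_le_inf_left _ (principal_mono.2 (hanti hab))
      · exact hne
    let 𝒢 := Ultrafilter.of g
    have h𝒢 : (𝒢 : Filter Y) ≤ g := Ultrafilter.of_le g
    obtain ⟨y, hy⟩ := hcomp 𝒢 (fun n => by
      refine ⟨k n, ?_⟩
      have h1 : (𝒢 : Filter Y) ≤ 𝓟 (P (n + 1)) := h𝒢.trans ((iInf_le _ (n + 1)).trans inf_le_right)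
      have h2 := le_principal_iff.1 h1
      exact mem_of_superset h2 (by rw [hP]; exact inter_subset_right))
    refine ⟨y, ?_⟩
    have h1 : map stoneCechUnit (𝒢 : Filter Y) ≤ 𝓝 p := by
      rw [map_le_iff_le_comap]
      exact h𝒢.trans ((iInf_le _ 0).trans inf_le_left)
    have h2 : map stoneCechUnit (𝒢 : Filter Y) ≤ 𝓝 (stoneCechUnit y) :=
      (continuous_stoneCechUnit.tendsto y).mono_left hy
    exact tendsto_nhds_unique (f := stoneCechUnit) (l := (𝒢 : Filter Y)) h2 h1

/-- an open linear map onto its range is onto -/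
theorem surjective_of_isOpenMap {X : Type u} {Y : Type v} [TopologicalSpace X]
    [TopologicalSpace Y] (S : Cp X →L[ℝ] Cp Y) (hS : IsOpenMap S) : Function.Surjective S := by
  intro g
  have h1 : IsOpen (Set.range S) := hS.isOpen_range
  have h2 : Tendsto (fun r : ℝ => r • g) (𝓝 0) (𝓝 ((0 : ℝ) • g)) :=
    (continuous_id.smul continuous_const).tendsto 0
  rw [zero_smul] at h2
  have h3 : ∀ᶠ r : ℝ in 𝓝 0, r • g ∈ Set.range S :=
    h2 (h1.mem_nhds ⟨0, map_zero S⟩)
  have h4 : ∃ r : ℝ, r ≠ 0 ∧ r • g ∈ Set.range S := by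
    have h5 : ∀ᶠ r : ℝ in 𝓝[≠] 0, r ≠ 0 ∧ r • g ∈ Set.range S := by
      filter_upwards [self_mem_nhdsWithin, nhdsWithin_le_nhds h3] with r hr hr'
      exact ⟨hr, hr'⟩
    exact h5.exists
  obtain ⟨r, hr, f, hf⟩ := h4
  refine ⟨r⁻¹ • f, ?_⟩
  rw [map_smul, hf, smul_smul, inv_mul_cancel₀ hr, one_smul]

/-- The main theorem. -/
theorem ksd_of_isOpenMap {X : Type u} {Y : Type v} {K : Type w}
    [TopologicalSpace X] [TopologicalSpace Y] [T35Space Y]
    [TopologicalSpace K] [CompactSpace K] [T2Space K]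
    (e : X → K) (he : IsEmbedding e) (A : ℕ → ℕ → Set K)
    (hA : ∀ n m, IsCompact (A n m)) (hrange : Set.range e = ⋂ n, ⋃ m, A n m)
    (L : Cp X →L[ℝ] Cp Y) (hLo : IsOpenMap L) :
    ∃ B : ℕ → ℕ → Set (StoneCech Y), (∀ n m, IsCompact (B n m)) ∧
      Set.range (stoneCechUnit : Y → StoneCech Y) = ⋂ n, ⋃ m, B n m := by
  classical
  have hLs := surjective_of_isOpenMap L hLo
  -- increasing compact sets
  let A' : ℕ → ℕ → Set K := fun n m => ⋃ k ∈ Set.Iic m, A n k
  have hA' : ∀ n m, IsCompact (A' n m) := fun n m =>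
    (Set.finite_Iic m).isCompact_biUnion (fun k _ => hA n k)
  have hA'mono : ∀ n m m', m ≤ m' → A' n m ⊆ A' n m' := fun n m m' h =>
    biUnion_subset_biUnion_left (Iic_subset_Iic.2 h)
  have hrange' : ∀ z : K, (∀ n, ∃ m, z ∈ A' n m) → ∃ x, e x = z := by
    intro z hz
    have : z ∈ Set.range e := by
      rw [hrange, mem_iInter]
      intro n
      obtain ⟨m, hm⟩ := hz n
      obtain ⟨k, _, hk⟩ := mem_iUnion₂.1 hm
      exact mem_iUnion.2 ⟨k, hk⟩
    exact this
  have hmemA : ∀ x n, ∃ m, e x ∈ A' n m := by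
    intro x n
    have : e x ∈ ⋂ n, ⋃ m, A n m := by rw [← hrange]; exact ⟨x, rfl⟩
    obtain ⟨m, hm⟩ := mem_iUnion.1 (mem_iInter.1 this n)
    exact ⟨m, mem_iUnion₂.2 ⟨m, le_refl m, hm⟩⟩
  -- representation of the functionals `f ↦ L f y`
  have hrep : ∀ y : Y, ∃ (T : Finset X) (c : X → ℝ), (∀ x ∈ T, c x ≠ 0) ∧
      ∀ f : Cp X, (L f).1 y = ∑ x ∈ T, c x * f.1 x := by
    intro y
    exact exists_repr_of_continuous ((ev y).comp L)
  choose T c hc hT using hrep
  let eC : C(K, ℝ) → Cp X := fun f => ⟨fun x => f (e x), f.continuous.comp he.continuous⟩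
  let F0 : ℕ → ℕ → ℕ → Set Y := fun n J m =>
    {y | ∃ (p : Fin J → K) (d : Fin J → ℝ), (∀ i, p i ∈ A' n m) ∧ (∀ i, |d i| ≤ m) ∧
      ∀ f : C(K, ℝ), (L (eC f)).1 y = ∑ i, d i * f (p i)}
  -- closedness
  have hF0closed : ∀ n J m, IsClosed (F0 n J m) := by
    intro n J m
    let S : Set ((Fin J → K) × (Fin J → ℝ)) :=
      (Set.univ.pi fun _ => A' n m) ×ˢ (Set.univ.pi fun _ => Set.Icc (-(m : ℝ)) m)
    have hS : IsCompact S :=
      (isCompact_univ_pi fun _ => hA' n m).prod (isCompact_univ_pi fun _ => isCompact_Icc)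
    have : CompactSpace S := isCompact_iff_compactSpace.1 hS
    let R : Set (Y × S) := ⋂ f : C(K, ℝ), {q | (L (eC f)).1 q.1 =
      ∑ i, (q.2 : (Fin J → K) × (Fin J → ℝ)).2 i * f ((q.2 : (Fin J → K) × (Fin J → ℝ)).1 i)}
    have hR : IsClosed R := by
      apply isClosed_iInter
      intro f
      have hLf : Continuous (L (eC f)).1 := (L (eC f)).2
      apply isClosed_eq
      · exact hLf.comp continuous_fst
      · fun_prop
    have : F0 n J m = Prod.fst '' R := by
      ext y
      constructor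
      · rintro ⟨p, d, hp, hd, hf⟩
        refine ⟨⟨y, ⟨⟨p, d⟩, ⟨fun i _ => hp i, fun i _ => abs_le.1 (hd i)⟩⟩⟩, ?_, rfl⟩
        rw [mem_iInter]
        exact hf
      · rintro ⟨⟨y', ⟨⟨p, d⟩, ⟨hp, hd⟩⟩⟩, hq, rfl⟩
        refine ⟨p, d, fun i => hp i trivial, fun i => abs_le.2 (hd i trivial), ?_⟩
        intro f
        exact mem_iInter.1 hq f
    rw [this]
    exact isClosedMap_fst_of_compactSpace _ hR
  let F : ℕ → ℕ → Set Y := fun n k => F0 n (Nat.unpair k).1 (Nat.unpair k).2
  have hFclosed : ∀ n k, IsClosed (F n k) := fun n k => hF0closed _ _ _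
  -- covering
  have hFcov : ∀ n, ⋃ k, F n k = univ := by
    intro n
    rw [eq_univ_iff_forall]
    intro y
    choose mx hmx using fun x => hmemA x n
    let m := (T y).sup (fun x => max (mx x) ⌈|c y x|⌉₊)
    refine mem_iUnion.2 ⟨Nat.pair (T y).card m, ?_⟩
    show y ∈ F0 n (Nat.unpair (Nat.pair (T y).card m)).1 (Nat.unpair (Nat.pair (T y).card m)).2
    rw [Nat.unpair_pair]
    have hle : ∀ x ∈ T y, max (mx x) ⌈|c y x|⌉₊ ≤ m := fun x hx =>
      Finset.le_sup (f := fun x => max (mx x) ⌈|c y x|⌉₊) hx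
    refine ⟨fun i => e ((T y).equivFin.symm i : X), fun i => c y ((T y).equivFin.symm i : X),
      ?_, ?_, ?_⟩
    · intro i
      have hx := ((T y).equivFin.symm i).2
      exact hA'mono n _ _ ((le_max_left _ _).trans (hle _ hx)) (hmx _)
    · intro i
      have hx := ((T y).equivFin.symm i).2
      have h1 : ⌈|c y ((T y).equivFin.symm i : X)|⌉₊ ≤ m := (le_max_right _ _).trans (hle _ hx)
      exact (Nat.le_ceil _).trans (by exact_mod_cast h1)
    · intro f
      rw [hT y (eC f), ← Finset.sum_coe_sort (T y)]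
      rw [← Equiv.sum_comp (T y).equivFin.symm]
  -- support lemma
  have hsupp : ∀ n J m y, y ∈ F0 n J m →
      (∀ x ∈ T y, e x ∈ A' n m ∧ |c y x| ≤ J * m) ∧ (T y).card ≤ J := by
    rintro n J m y ⟨p, d, hp, hd, hf⟩
    have key : ∀ x ∈ T y, c y x = ∑ i ∈ Finset.univ.filter (fun i => p i = e x), d i := by
      intro x hx
      let Z : Finset K := ((T y).image e ∪ Finset.univ.image p).erase (e x)
      have hdis : Disjoint (Z : Set K) {e x} := by
        rw [Set.disjoint_singleton_right]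
        simp [Z]
      obtain ⟨f, hf0, hf1, -⟩ := exists_continuous_zero_one_of_isClosed
        Z.finite_toSet.isClosed (isClosed_singleton (x := e x)) hdis
      have h1 := hf f
      have hval : ∀ z ∈ ((T y).image e ∪ Finset.univ.image p), z ≠ e x → f z = 0 := by
        intro z hz hne
        exact hf0 (by simp only [Z, Finset.coe_erase]; exact ⟨hz, hne⟩)
      have hval1 : f (e x) = 1 := hf1 rfl
      have h2 : (L (eC f)).1 y = c y x := by
        rw [hT y (eC f), Finset.sum_eq_single x]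
        · show c y x * f (e x) = c y x
          rw [hval1, mul_one]
        · intro x' hx' hne
          show c y x' * f (e x') = 0
          rw [hval (e x') (Finset.mem_union_left _ (Finset.mem_image_of_mem _ hx'))
            (fun h => hne (he.injective h)), mul_zero]
        · intro h; exact absurd hx h
      have h3 : ∑ i, d i * f (p i) = ∑ i ∈ Finset.univ.filter (fun i => p i = e x), d i := by
        rw [Finset.sum_filter]
        apply Finset.sum_congr rfl
        intro i _
        by_cases hi : p i = e x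
        · rw [if_pos hi, hi, hval1, mul_one]
        · rw [if_neg hi, hval (p i) (Finset.mem_union_right _
            (Finset.mem_image_of_mem _ (Finset.mem_univ i))) hi, mul_zero]
      rw [← h2, h1, h3]
    have hex : ∀ x ∈ T y, ∃ i, p i = e x := by
      intro x hx
      by_contra hcon
      push Not at hcon
      have h1 := key x hx
      rw [Finset.filter_false_of_mem (fun i _ => hcon i), Finset.sum_empty] at h1
      exact hc y x hx h1
    refine ⟨fun x hx => ⟨?_, ?_⟩, ?_⟩
    · obtain ⟨i, hi⟩ := hex x hx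
      rw [← hi]; exact hp i
    · rw [key x hx]
      refine (Finset.abs_sum_le_sum_abs _ _).trans ?_
      refine (Finset.sum_le_sum_of_subset_of_nonneg (Finset.filter_subset _ _)
        (fun i _ _ => abs_nonneg _)).trans ?_
      refine (Finset.sum_le_card_nsmul _ _ (m : ℝ) (fun i _ => hd i)).trans ?_
      simp
    · have h1 : (T y).image e ⊆ Finset.univ.image p := by
        intro z hz
        obtain ⟨x, hx, rfl⟩ := Finset.mem_image.1 hz
        obtain ⟨i, hi⟩ := hex x hx
        exact Finset.mem_image.2 ⟨i, Finset.mem_univ i, hi⟩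
      have h2 := Finset.card_le_card h1
      rw [Finset.card_image_of_injective _ he.injective] at h2
      refine h2.trans (Finset.card_image_le.trans ?_)
      simp
  -- completeness
  have hcomp : ∀ 𝒢 : Ultrafilter Y, (∀ n, ∃ k, F n k ∈ 𝒢) → ∃ y, (𝒢 : Filter Y) ≤ 𝓝 y := by
    intro 𝒢 h𝒢
    choose k hk using h𝒢
    have hYne : Nonempty Y := by
      obtain ⟨y, -⟩ := 𝒢.nonempty_of_mem (hk 0)
      exact ⟨y⟩
    obtain ⟨y₀⟩ := hYne
    have hXne : Nonempty X := by
      by_contra hcon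
      obtain ⟨f1, hf1⟩ := hLs ⟨fun _ => 1, continuous_const⟩
      have h1 := hT y₀ f1
      have h2 : T y₀ = ∅ := by
        rw [Finset.eq_empty_iff_forall_notMem]
        intro x _
        exact hcon ⟨x⟩
      rw [h2, hf1] at h1
      simp at h1
    -- constant cardinality
    obtain ⟨j, hj⟩ : ∃ j, {y | (T y).card = j} ∈ 𝒢 := by
      have h1 : Set.Iic (Nat.unpair (k 0)).1 ∈ 𝒢.map (fun y => (T y).card) := by
        rw [Ultrafilter.mem_map]
        filter_upwards [hk 0] with y hy
        exact (hsupp _ _ _ y hy).2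
      obtain ⟨j, -, hj⟩ := Ultrafilter.eq_pure_of_finite_mem (Set.finite_Iic _) h1
      refine ⟨j, ?_⟩
      have h2 : ({j} : Set ℕ) ∈ 𝒢.map (fun y => (T y).card) := by rw [hj]; exact rfl
      exact h2
    -- enumeration of the supports
    have henum : ∀ y, ∃ x : Fin j → X, (T y).card = j →
        (∀ i, x i ∈ T y) ∧ ∀ g : X → ℝ, ∑ z ∈ T y, g z = ∑ i, g (x i) := by
      intro y
      by_cases hy : (T y).card = j
      · refine ⟨fun i => ((T y).equivFinOfCardEq hy).symm i, fun _ => ⟨fun i => ?_, fun g => ?_⟩⟩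
        · exact (((T y).equivFinOfCardEq hy).symm i).2
        · rw [← Finset.sum_coe_sort (T y), ← Equiv.sum_comp ((T y).equivFinOfCardEq hy).symm]
      · exact ⟨fun _ => hXne.some, fun h => absurd h hy⟩
    choose x hx using henum
    -- limits of the points
    have hlim : ∀ i, ∃ q : X, Tendsto (fun y => x y i) (𝒢 : Filter Y) (𝓝 q) := by
      intro i
      obtain ⟨P, -, hP⟩ := (isCompact_univ (X := K)).ultrafilter_le_nhds
        (𝒢.map (fun y => e (x y i))) (by simp)
      have hPt : Tendsto (fun y => e (x y i)) (𝒢 : Filter Y) (𝓝 P) := hP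
      have hPA : ∀ n, ∃ m, P ∈ A' n m := by
        intro n
        refine ⟨(Nat.unpair (k n)).2, ?_⟩
        apply (hA' n _).isClosed.mem_of_tendsto hPt
        filter_upwards [hk n, hj] with y hy hyj
        exact ((hsupp _ _ _ y hy).1 _ ((hx y hyj).1 i)).1
      obtain ⟨q, hq⟩ := hrange' P hPA
      refine ⟨q, ?_⟩
      rw [he.tendsto_nhds_iff, hq]
      exact hPt
    choose q hq using hlim
    have hlimc : ∀ i, ∃ a : ℝ, Tendsto (fun y => c y (x y i)) (𝒢 : Filter Y) (𝓝 a) := by
      intro i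
      have h1 : ∀ᶠ y in (𝒢 : Filter Y), c y (x y i) ∈
          Set.Icc (-((Nat.unpair (k 0)).1 * (Nat.unpair (k 0)).2 : ℝ))
            ((Nat.unpair (k 0)).1 * (Nat.unpair (k 0)).2) := by
        filter_upwards [hk 0, hj] with y hy hyj
        exact abs_le.1 ((hsupp _ _ _ y hy).1 _ ((hx y hyj).1 i)).2
      obtain ⟨a, -, ha⟩ := isCompact_Icc.ultrafilter_le_nhds
        (𝒢.map (fun y => c y (x y i))) (le_principal_iff.2 h1)
      exact ⟨a, ha⟩
    choose a ha using hlimc
    have hconv : ∀ f : Cp X, Tendsto (fun y => (L f).1 y) (𝒢 : Filter Y)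
        (𝓝 (∑ i, a i * f.1 (q i))) := by
      intro f
      have hfc : Continuous f.1 := f.2
      have h1 : Tendsto (fun y => ∑ i, c y (x y i) * f.1 (x y i)) (𝒢 : Filter Y)
          (𝓝 (∑ i, a i * f.1 (q i))) := by
        apply tendsto_finsetSum
        intro i _
        exact (ha i).mul ((hfc.tendsto (q i)).comp (hq i))
      refine h1.congr' ?_
      filter_upwards [hj] with y hyj
      rw [hT y f]
      exact ((hx y hyj).2 (fun z => c y z * f.1 z)).symm
    -- the limit functional on `C(Y)`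
    have hrange_top : LinearMap.range (L : Cp X →ₗ[ℝ] Cp Y) = ⊤ :=
      LinearMap.range_eq_top.2 hLs
    obtain ⟨σ, hσ⟩ := LinearMap.exists_rightInverse_of_surjective (L : Cp X →ₗ[ℝ] Cp Y)
      hrange_top
    have hσ' : ∀ g : Cp Y, L (σ g) = g := fun g => by
      have := congrArg (fun φ => φ g) hσ
      exact this
    let Θ : Cp X →L[ℝ] ℝ := ∑ i, a i • ev (q i)
    have hΘ : ∀ f, Θ f = ∑ i, a i * f.1 (q i) := by
      intro f
      simp [Θ, ev_apply]
    let Λ₀ : Cp Y →ₗ[ℝ] ℝ := (Θ : Cp X →ₗ[ℝ] ℝ).comp σ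
    have hΛL : ∀ f : Cp X, Λ₀ (L f) = Θ f := by
      intro f
      have h1 := hconv (σ (L f))
      rw [hσ' (L f)] at h1
      have h2 := tendsto_nhds_unique h1 (hconv f)
      show Θ (σ (L f)) = Θ f
      rw [hΘ, hΘ, h2]
    have hΛc : Continuous Λ₀ := by
      have hquot : IsQuotientMap L := hLo.isQuotientMap L.continuous hLs
      rw [hquot.continuous_iff]
      have h1 : (Λ₀ : Cp Y → ℝ) ∘ L = Θ := by
        funext f
        exact hΛL f
      rw [h1]
      exact Θ.continuous
    let Λ : Cp Y →L[ℝ] ℝ := ⟨Λ₀, hΛc⟩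
    obtain ⟨S, hS⟩ := exists_finset_of_continuous Λ
    by_contra hcon
    push Not at hcon
    have hU : ∀ t : Y, ∃ U : Set Y, IsOpen U ∧ t ∈ U ∧ U ∉ 𝒢 := by
      intro t
      have h1 := hcon t
      rw [Filter.not_le] at h1
      obtain ⟨U, hU, hU'⟩ := h1
      obtain ⟨V, hVU, hVo, htV⟩ := mem_nhds_iff.1 hU
      exact ⟨V, hVo, htV, fun hV => hU' (mem_of_superset hV hVU)⟩
    choose U hUo hUt hUn using hU
    let W : Set Y := ⋂ t ∈ S, (U t)ᶜ
    have hWc : IsClosed W := isClosed_biInter fun t _ => (hUo t).isClosed_compl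
    have hWm : W ∈ 𝒢 := by
      rw [← Ultrafilter.mem_coe, Filter.biInter_finset_mem]
      intro t _
      exact Ultrafilter.compl_mem_iff_notMem.2 (hUn t)
    obtain ⟨g, hg0, hg1⟩ := exists_sep S W hWc (fun t ht htW => by
      exact (mem_iInter₂.1 htW t ht) (hUt t))
    have h1 : Λ g = 0 := hS g hg0
    have h1' : Θ (σ g) = 0 := h1
    have h2 := hconv (σ g)
    rw [← hΘ, h1', hσ' g] at h2
    have h3 : Tendsto (fun y => g.1 y) (𝒢 : Filter Y) (𝓝 1) := by
      apply tendsto_const_nhds.congr'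
      filter_upwards [hWm] with y hy
      rw [hg1 y hy]
    exact zero_ne_one (tendsto_nhds_unique h2 h3)
  exact ksd_of_complete F hFclosed hFcov hcomp

end Pool.Agent.Helper27.OwnKsd
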