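import Pool.Agent.Helper71.Lac8

set_option autoImplicit false

open MeasureTheory

namespace Pool.Agent.Helper27.OwnLac

open Pool.Agent.Helper71

instance : IsProbabilityMeasure nu := ⟨nu_univ⟩

theorem phi_eq (x : ℝ) :
    phi x = if 0 < x ∧ x ≤ 1 then 1 else if 1 < x ∧ x ≤ 2 then -1 else 0 := by
  unfold phi
  by_cases h1 : 0 < x ∧ x ≤ 1
  · have h2 : x ∉ Set.Ioc (1:ℝ) 2 := fun h => by
      have := h.1
      linarith [h1.2]
    have h3 : x ∈ Set.Ioc (0:ℝ) 1 := h1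
    rw [if_pos h1, Set.indicator_of_mem h3, Set.indicator_of_notMem h2, sub_zero]
  · have h3 : x ∉ Set.Ioc (0:ℝ) 1 := h1
    rw [if_neg h1, Set.indicator_of_notMem h3]
    by_cases h2 : 1 < x ∧ x ≤ 2
    · have h4 : x ∈ Set.Ioc (1:ℝ) 2 := h2
      rw [if_pos h2, Set.indicator_of_mem h4, zero_sub]
    · have h4 : x ∉ Set.Ioc (1:ℝ) 2 := h2
      rw [if_neg h2, Set.indicator_of_notMem h4, sub_zero]

/-- Fourier decay at every non-zero frequency -/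
theorem decay (ξ : ℝ) (hξ : ξ ≠ 0) :
    ‖∫ y, Complex.exp (((-2 * Real.pi * (y * ξ) : ℝ) : ℂ) * Complex.I) ∂nu‖
      ≤ 7 * |ξ| ^ (-(1 / 10) : ℝ) := by
  have hee : ∀ y : ℝ, Complex.exp (((-2 * Real.pi * (y * ξ) : ℝ) : ℂ) * Complex.I) =
      ee (y * ξ) := fun _ => rfl
  simp only [hee]
  rcases le_or_gt 1 |ξ| with h | h
  · exact nu_decay ξ h
  · have h0 : 0 < |ξ| := abs_pos.2 hξ
    have h1 : ‖∫ y, ee (y * ξ) ∂nu‖ ≤ 1 := by
      have h2 : ∀ y : ℝ, ‖ee (y * ξ)‖ ≤ 1 := by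
        intro y
        rw [← hee, Complex.norm_exp_ofReal_mul_I]
      have h3 := norm_integral_le_of_norm_le_const (μ := nu)
        (Filter.Eventually.of_forall h2)
      simpa using h3
    have h4 : (1:ℝ) ≤ |ξ| ^ (-(1 / 10) : ℝ) := by
      apply Real.one_le_rpow_of_pos_of_le_one_of_nonpos h0 h.le
      norm_num
    linarith

theorem integral_phi_zero : ∫ x, phi x = 0 := by
  unfold phi
  rw [integral_sub, integral_indicator_const _ measurableSet_Ioc,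
    integral_indicator_const _ measurableSet_Ioc]
  · simp
    norm_num
  · rw [integrable_indicator_iff measurableSet_Ioc]
    exact integrableOn_const (by simp)
  · rw [integrable_indicator_iff measurableSet_Ioc]
    exact integrableOn_const (by simp)

/-- the function belongs to the Hardy space -/
theorem hardy : (∫⁻ x : ℝ, ⨆ (t : ℝ) (_ : 0 < t),
      ‖∫ y, phi (x - t * y) * Real.exp (-Real.pi * y ^ 2)‖ₑ) ≤ ENNReal.ofReal (34 * Real.pi) := by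
  have h1 : (∫⁻ x : ℝ, ⨆ (t : ℝ) (_ : 0 < t),
      ‖∫ y, phi (x - t * y) * Real.exp (-Real.pi * y ^ 2)‖ₑ) ≤
      ∫⁻ x : ℝ, ENNReal.ofReal (34 / (1 + x ^ 2)) := by
    apply lintegral_mono
    intro x
    refine iSup₂_le (fun t ht => ?_)
    rw [← ofReal_norm]
    apply ENNReal.ofReal_le_ofReal
    exact phi_gauss_bound _ t ht
  refine h1.trans ?_
  have hi : Integrable (fun x : ℝ => 34 / (1 + x ^ 2)) := by
    have := integrable_inv_one_add_sq.const_mul (34:ℝ)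
    simpa only [div_eq_mul_inv] using this
  rw [← ofReal_integral_eq_lintegral_ofReal hi
    (Filter.Eventually.of_forall (fun x => by positivity))]
  apply ENNReal.ofReal_le_ofReal
  have h2 : ∫ x : ℝ, 34 / (1 + x ^ 2) = 34 * Real.pi := by
    simp only [div_eq_mul_inv]
    rw [integral_const_mul, integral_univ_inv_one_add_sq]
  rw [h2]

theorem level (j : ℕ) :
    ENNReal.ofReal (5 ^ j / 128) ≤
      ENNReal.ofReal (1 / 2 ^ (6 * 10 ^ (j + 1) + j + 5)) *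
        volume {x : ℝ | ENNReal.ofReal (1 / 2 ^ (6 * 10 ^ (j + 1) + j + 5)) <
          ⨆ k : ℤ, ‖∫ y, phi (x - (2:ℝ) ^ k * y) ∂nu‖ₑ} := by
  have hLL : (10:ℕ) ^ (j + 1) = LL j := rfl
  rw [hLL]
  have h1 : ENNReal.ofReal (((LL j - 5 : ℕ) : ℝ) * 2 ^ (6 * LL j - 2)) ≤
      volume {x : ℝ | ENNReal.ofReal (1 / 2 ^ (6 * LL j + j + 5)) <
        ⨆ k : ℤ, ‖∫ y, phi (x - (2:ℝ) ^ k * y) ∂nu‖ₑ} := by
    refine (big_set j).trans ?_
    apply measure_mono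
    rintro x ⟨k, hk⟩
    change ENNReal.ofReal (1 / 2 ^ (6 * LL j + j + 5)) <
        ⨆ k : ℤ, ‖∫ y, phi (x - (2:ℝ) ^ k * y) ∂nu‖ₑ
    refine lt_of_lt_of_le ?_ (le_iSup _ (k:ℤ))
    rw [zpow_natCast, integral_phi, ← ofReal_norm]
    rw [ENNReal.ofReal_lt_ofReal_iff_of_nonneg (by positivity)]
    have h1 : (1:ℝ) / 2 ^ (6 * LL j + j + 5) < 1 / 2 ^ (6 * LL j + j + 4) := by
      apply one_div_lt_one_div_of_lt (by positivity)
      exact pow_lt_pow_right₀ (by norm_num) (by omega)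
    calc (1:ℝ) / 2 ^ (6 * LL j + j + 5) < 1 / 2 ^ (6 * LL j + j + 4) := h1
      _ ≤ VV k x := hk
      _ ≤ ‖VV k x‖ := Real.le_norm_self _
  refine le_trans ?_ (mul_le_mul_right h1 _)
  rw [← ENNReal.ofReal_mul (by positivity)]
  exact ENNReal.ofReal_le_ofReal (growth j)

theorem main :
    ∃ μ : Measure ℝ, IsProbabilityMeasure μ ∧ μ (Set.Icc 0 2)ᶜ = 0 ∧
      (∀ ξ : ℝ, ξ ≠ 0 →
        ‖∫ y, Complex.exp (((-2 * Real.pi * (y * ξ) : ℝ) : ℂ) * Complex.I) ∂μ‖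
          ≤ 7 * |ξ| ^ (-(1 / 10) : ℝ)) ∧
      ∃ f : ℝ → ℝ,
        (∀ x, f x = if 0 < x ∧ x ≤ 1 then 1 else if 1 < x ∧ x ≤ 2 then -1 else 0) ∧
        (∫ x, f x) = 0 ∧
        (∫⁻ x : ℝ, ⨆ (t : ℝ) (_ : 0 < t),
          ‖∫ y, f (x - t * y) * Real.exp (-Real.pi * y ^ 2)‖ₑ) ≤ ENNReal.ofReal (34 * Real.pi) ∧
        ∀ j : ℕ, ENNReal.ofReal (5 ^ j / 128) ≤
          ENNReal.ofReal (1 / 2 ^ (6 * 10 ^ (j + 1) + j + 5)) *
            volume {x : ℝ | ENNReal.ofReal (1 / 2 ^ (6 * 10 ^ (j + 1) + j + 5)) <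
              ⨆ k : ℤ, ‖∫ y, f (x - (2:ℝ) ^ k * y) ∂μ‖ₑ} :=
  ⟨nu, inferInstance, nu_supp, decay, phi, phi_eq, integral_phi_zero, hardy, level⟩

end Pool.Agent.Helper27.OwnLac
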